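import Pool.Agent.Helper63.P705.BS.Goals

/-!
# MP_705522_gt: packet BS-BG, negativity beyond 64
-/

namespace Pool.Agent.Helper30.BS

open Pool.Agent.Helper63.P705
open Pool.Agent.Helper53.PT (mo m3 f0 f1 f2 tk Nn AA AB FP GTP GSN GNI GFI sg)

theorem cd_ge (x y : ℕ) (hy : 0 < y) : (x : ℝ) / y ≤ cd x y := by
  have h : x ≤ y * cd x y := by
    show x ≤ y * ((x + (y - 1)) / y)
    have h1 := Nat.div_add_mod (x + (y - 1)) y
    have h2 := Nat.mod_lt (x + (y - 1)) hy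
    generalize y * ((x + (y - 1)) / y) = z at *
    omega
  rw [div_le_iff₀ (by exact_mod_cast hy), mul_comm]
  exact_mod_cast h

theorem shr_le (a k : ℕ) : ((Nat.shiftRight a k : ℕ) : ℝ) ≤ (a : ℝ) / 2 ^ k := by
  have h : Nat.shiftRight a k = a / 2 ^ k := Nat.shiftRight_eq_div_pow a k
  rw [h]
  have := @Nat.cast_div_le ℝ _ _ _ a (2 ^ k)
  simpa using this

theorem shl_eq (a k : ℕ) : Nat.shiftLeft a k = a * 2 ^ k := Nat.shiftLeft_eq a k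

theorem sub_ge (a b : ℕ) : (a : ℝ) - b ≤ ((Nat.sub a b : ℕ) : ℝ) := by
  have h : a ≤ Nat.sub a b + b := by
    show a ≤ (a - b) + b
    omega
  have : (a : ℝ) ≤ ((Nat.sub a b : ℕ) : ℝ) + b := by exact_mod_cast h
  linarith

theorem div_le' (a b : ℕ) : ((Nat.div a b : ℕ) : ℝ) ≤ (a : ℝ) / b := @Nat.cast_div_le ℝ _ _ _ a b

theorem pi_le : Real.pi ≤ ((pi60 : ℝ) + 1) / 2 ^ 60 := by
  have h := Real.pi_lt_d20
  rw [le_div_iff₀ (by positivity)]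
  have : ((pi60 : ℕ) : ℝ) = 3622009729038561421 := by
    unfold pi60; norm_num
  rw [this]
  nlinarith [h]

theorem mul3 (u w U W K : ℝ) (hu0 : 0 ≤ u) (hw0 : 0 ≤ w) (hU : u ≤ K * U) (hW : w ≤ K * W) (hK : 0 < K) :
    u * w / K ≤ K * (U * W) := by
  have h : u * w ≤ (K * U) * (K * W) := mul_le_mul hU hW hw0 (le_trans hu0 hU)
  calc u * w / K ≤ (K * U) * (K * W) / K := div_le_div_of_nonneg_right h hK.le
    _ = _ := by field_simp

/-- the final comparison -/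
theorem rhs_le (f G : ℕ) (F Γ1 : ℝ) (hf : (f : ℝ) ≤ 2 ^ 60 * F) (hG : (G : ℝ) ≤ 2 ^ 60 * Γ1) :
    ((Nat.shiftRight (Nat.mul f G) 60 : ℕ) : ℝ) ≤ 2 ^ 60 * (F * Γ1) := by
  have h1 := shr_le (Nat.mul f G) 60
  have h2 : ((Nat.mul f G : ℕ) : ℝ) = (f : ℝ) * G := Nat.cast_mul f G
  rw [h2] at h1
  exact le_trans h1 (mul3 _ _ _ _ _ (Nat.cast_nonneg _) (Nat.cast_nonneg _) hf hG (by positivity))

/-- `2^60 σ` bound -/
theorem s_le (tN wN uN s : ℕ) (t w : ℝ) (ht0 : 0 ≤ t) (ht : (tN : ℝ) ≤ 2 ^ 60 * t)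
    (hw : (wN : ℝ) ≤ 2 ^ 60 * w) (hu : uN ^ 2 ≤ Nat.shiftLeft tN 60)
    (hs : s = Nat.shiftRight (Nat.mul uN wN) 60) : (s : ℝ) ≤ 2 ^ 60 * (√t * w) := by
  have h1 : (uN : ℝ) ≤ 2 ^ 60 * √t := by
    have h2 : (uN : ℝ) ^ 2 ≤ (tN : ℝ) * 2 ^ 60 := by
      rw [shl_eq] at hu
      have : ((uN ^ 2 : ℕ) : ℝ) ≤ ((tN * 2 ^ 60 : ℕ) : ℝ) := Nat.cast_le.mpr hu
      rw [Nat.cast_pow, Nat.cast_mul, Nat.cast_pow, Nat.cast_ofNat] at this
      exact this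
    clear hu hs
    have h3 : (uN : ℝ) ^ 2 ≤ (2 ^ 60 * √t) ^ 2 := by
      rw [mul_pow, Real.sq_sqrt ht0]
      calc (uN : ℝ) ^ 2 ≤ (tN : ℝ) * 2 ^ 60 := h2
        _ ≤ (2 ^ 60 * t) * 2 ^ 60 := mul_le_mul_of_nonneg_right ht (by positivity)
        _ = _ := by ring
    exact abs_le_of_sq_le_sq' h3 (by positivity) |>.2
  clear hu
  have h4 := shr_le (Nat.mul uN wN) 60
  rw [← hs] at h4
  clear hs
  have h2 : ((Nat.mul uN wN : ℕ) : ℝ) = (uN : ℝ) * wN := Nat.cast_mul uN wN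
  rw [h2] at h4
  exact le_trans h4 (mul3 _ _ _ _ _ (Nat.cast_nonneg _) (Nat.cast_nonneg _) h1 hw (by positivity))

/-- the left side -/
theorem lhs_ge (a2 gs s lhs : ℕ) (w σ A : ℝ) (hs0 : 0 < s) (hsσ : (s : ℝ) ≤ 2 ^ 60 * σ) (hA : 0 ≤ A)
    (hgs : 2 ^ 60 * A ≤ (gs : ℝ)) (hw0 : 0 ≤ w) (hw : w ≤ Real.pi * ((a2 : ℝ) / 8192) / 2)
    (hl : lhs = cd (Nat.mul (cd (Nat.mul (Nat.succ pi60) a2) 16384) gs) s) :
    2 ^ 60 * (w / σ * A) ≤ lhs := by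
  have hs0' : (0 : ℝ) < s := by exact_mod_cast hs0
  have hσ : 0 < σ := by
    by_contra h
    push Not at h
    have : (s : ℝ) ≤ 0 := le_trans hsσ (by nlinarith)
    linarith
  have h1 : (((Nat.succ pi60 * a2 : ℕ)) : ℝ) / ((16384 : ℕ) : ℝ) ≤ cd (Nat.mul (Nat.succ pi60) a2) 16384 :=
    cd_ge _ _ (by norm_num)
  have h2 := cd_ge (Nat.mul (cd (Nat.mul (Nat.succ pi60) a2) 16384) gs) s hs0
  rw [← hl] at h2
  have h3 : ((Nat.mul (cd (Nat.mul (Nat.succ pi60) a2) 16384) gs : ℕ) : ℝ) =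
      ((cd (Nat.mul (Nat.succ pi60) a2) 16384 : ℕ) : ℝ) * gs := by
    show ((cd (Nat.mul (Nat.succ pi60) a2) 16384 * gs : ℕ) : ℝ) = _
    push_cast; ring
  rw [h3] at h2
  have h4 : w * 2 ^ 60 ≤ ((cd (Nat.mul (Nat.succ pi60) a2) 16384 : ℕ) : ℝ) := by
    refine le_trans ?_ h1
    have hpi := pi_le
    rw [le_div_iff₀ (by positivity)] at hpi
    push_cast
    rw [le_div_iff₀ (by norm_num)]
    calc w * 2 ^ 60 * 16384 ≤ (Real.pi * ((a2 : ℝ) / 8192) / 2) * 2 ^ 60 * 16384 := by gcongr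
      _ = (Real.pi * 2 ^ 60) * a2 := by ring
      _ ≤ ((pi60 : ℝ) + 1) * a2 := by gcongr
  have h5 : w / σ ≤ w * 2 ^ 60 / s := by
    rw [div_le_div_iff₀ hσ hs0']
    calc w * s ≤ w * (2 ^ 60 * σ) := by gcongr
      _ = _ := by ring
  calc 2 ^ 60 * (w / σ * A) = (w / σ) * (2 ^ 60 * A) := by ring
    _ ≤ (w * 2 ^ 60 / s) * gs := by
        apply mul_le_mul h5 hgs (by positivity) (by positivity)
    _ = (w * 2 ^ 60) * gs / s := by ring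
    _ ≤ ((cd (Nat.mul (Nat.succ pi60) a2) 16384 : ℕ) : ℝ) * gs / s := by gcongr
    _ ≤ lhs := h2

theorem abs_max (x1 x2 x3 x4 : ℕ) (y K : ℝ) (h1 : y * K ≤ x1) (h2 : -y * K ≤ x4) :
    |y| * K ≤ ((Nat.succ (max (max x1 x2) (max x3 x4)) : ℕ) : ℝ) := by
  have m1 : (x1 : ℝ) ≤ ((Nat.succ (max (max x1 x2) (max x3 x4)) : ℕ) : ℝ) := by
    have : x1 ≤ Nat.succ (max (max x1 x2) (max x3 x4)) := by omega
    exact_mod_cast this
  have m4 : (x4 : ℝ) ≤ ((Nat.succ (max (max x1 x2) (max x3 x4)) : ℕ) : ℝ) := by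
    have : x4 ≤ Nat.succ (max (max x1 x2) (max x3 x4)) := by omega
    exact_mod_cast this
  rcases abs_cases y with ⟨h, _⟩ | ⟨h, _⟩
  · rw [h]; linarith
  · rw [h]; linarith

/-- `|q - 3| ≤ d/2^60` -/
theorem d_ge (a1 a2 : ℕ) (q : ℝ) (h1 : 0 < a1) (hq1 : q ≤ 8192 / (a1 : ℝ))
    (hq2 : 8192 / (a2 : ℝ) ≤ q) : |q - 3| * 2 ^ 60 ≤ ((Nat.succ (max (max (Nat.sub (cd (Nat.shiftLeft 8192 60) a1) (Nat.shiftLeft 3 60))
      (Nat.sub (Nat.shiftLeft 3 60) (Nat.div (Nat.shiftLeft 8192 60) a1)))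
    (max (Nat.sub (cd (Nat.shiftLeft 8192 60) a2) (Nat.shiftLeft 3 60))
      (Nat.sub (Nat.shiftLeft 3 60) (Nat.div (Nat.shiftLeft 8192 60) a2)))) : ℕ) : ℝ) := by
  have e3 : ((Nat.shiftLeft 3 60 : ℕ) : ℝ) = 3 * 2 ^ 60 := by rw [shl_eq]; push_cast; ring
  have e8 : ((Nat.shiftLeft 8192 60 : ℕ) : ℝ) = 8192 * 2 ^ 60 := by rw [shl_eq]; push_cast; ring
  refine abs_max _ _ _ _ _ _ ?_ ?_
  · refine le_trans ?_ (sub_ge _ _)
    have := cd_ge (Nat.shiftLeft 8192 60) a1 h1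
    rw [e8] at this
    rw [e3]
    have h5 : q * 2 ^ 60 ≤ 8192 * 2 ^ 60 / (a1 : ℝ) := by
      calc q * 2 ^ 60 ≤ 8192 / (a1 : ℝ) * 2 ^ 60 := mul_le_mul_of_nonneg_right hq1 (by positivity)
        _ = _ := by ring
    linarith
  · refine le_trans ?_ (sub_ge _ _)
    have := div_le' (Nat.shiftLeft 8192 60) a2
    rw [e8] at this
    rw [e3]
    have h5 : 8192 * 2 ^ 60 / (a2 : ℝ) ≤ q * 2 ^ 60 := by
      calc 8192 * 2 ^ 60 / (a2 : ℝ) = 8192 / (a2 : ℝ) * 2 ^ 60 := by ring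
        _ ≤ _ := mul_le_mul_of_nonneg_right hq2 (by positivity)
    linarith

theorem f_real (f c c' d y K : ℝ) (hK : 0 < K) (hd : 0 ≤ d) (hy : |y| * K ≤ d) (h1 : d * d / K ≤ c')
    (h2 : c' * 12338 / 10000 ≤ c) (h3 : f + c = K) : f ≤ K * (1 - 1.2338 * y ^ 2) := by
  have h5 : (|y| * K) * (|y| * K) ≤ d * d := mul_le_mul hy hy (by positivity) hd
  have h6 : (|y| * K) * (|y| * K) = y ^ 2 * K * K := by
    calc (|y| * K) * (|y| * K) = (|y| * |y|) * K * K := by ring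
      _ = _ := by rw [abs_mul_abs_self]; ring
  rw [h6] at h5
  have h7 : y ^ 2 * K ≤ c' := by
    refine le_trans ?_ h1
    rw [le_div_iff₀ hK]
    exact h5
  linarith

/-- the factor -/
theorem f_le (d f : ℕ) (y : ℝ) (hy : |y| * 2 ^ 60 ≤ d)
    (hf : f = Nat.sub (Nat.shiftLeft 1 60) (cd (Nat.mul (cd (Nat.mul d d) (Nat.shiftLeft 1 60)) 12338) 10000))
    (hf0 : 0 < f) : (f : ℝ) ≤ 2 ^ 60 * (1 - 1.2338 * y ^ 2) := by
  have e1 : Nat.shiftLeft 1 60 = 2 ^ 60 := by rw [shl_eq]; norm_num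
  rw [e1] at hf
  have h1 := cd_ge (Nat.mul d d) (2 ^ 60) (by norm_num)
  have h2 := cd_ge (Nat.mul (cd (Nat.mul d d) (2 ^ 60)) 12338) 10000 (by norm_num)
  generalize cd (Nat.mul (cd (Nat.mul d d) (2 ^ 60)) 12338) 10000 = c at *
  generalize cd (Nat.mul d d) (2 ^ 60) = c' at *
  have e2 : ((Nat.mul d d : ℕ) : ℝ) = (d : ℝ) * d := Nat.cast_mul d d
  have e3 : ((Nat.mul c' 12338 : ℕ) : ℝ) = (c' : ℝ) * 12338 := by
    rw [show Nat.mul c' 12338 = c' * 12338 from rfl, Nat.cast_mul, Nat.cast_ofNat]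
  rw [e2, Nat.cast_pow, Nat.cast_ofNat] at h1
  rw [e3, Nat.cast_ofNat] at h2
  have h3 : f + c = 2 ^ 60 := by
    have : f = 2 ^ 60 - c := hf
    omega
  have h4 : (f : ℝ) + c = 2 ^ 60 := by
    have : ((f + c : ℕ) : ℝ) = ((2 ^ 60 : ℕ) : ℝ) := by rw [h3]
    rw [Nat.cast_add, Nat.cast_pow, Nat.cast_ofNat] at this
    exact this
  exact f_real _ _ _ _ _ _ (by positivity) (Nat.cast_nonneg _) hy h1 h2 h4

/-- the unfolding of the condition -/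
theorem niC_eq (a1 a2 : ℕ) (h : niC a1 a2 = true) : ∃ s lhs d f : ℕ,
    s = Nat.shiftRight (Nat.mul (sqF (Nat.shiftLeft (tLo a1 a2) 60) (Nat.shiftLeft 3 60)) (sinL a1)) 60 ∧
    lhs = cd (Nat.mul (cd (Nat.mul (Nat.succ pi60) a2) 16384) (gsM s (pC a2) (pD a1))) s ∧
    d = Nat.succ (max (max (Nat.sub (cd (Nat.shiftLeft 8192 60) a1) (Nat.shiftLeft 3 60))
      (Nat.sub (Nat.shiftLeft 3 60) (Nat.div (Nat.shiftLeft 8192 60) a1)))
    (max (Nat.sub (cd (Nat.shiftLeft 8192 60) a2) (Nat.shiftLeft 3 60))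
      (Nat.sub (Nat.shiftLeft 3 60) (Nat.div (Nat.shiftLeft 8192 60) a2)))) ∧
    f = Nat.sub (Nat.shiftLeft 1 60) (cd (Nat.mul (cd (Nat.mul d d) (Nat.shiftLeft 1 60)) 12338) 10000) ∧
    0 < s ∧ lhs < Nat.shiftRight (Nat.mul f
      (Nat.div (Nat.shiftLeft (gamL (Nat.add (pA a2) 8192)) 13) (pB a1))) 60 := by
  refine ⟨_, _, _, _, rfl, rfl, rfl, rfl, ?_⟩
  unfold niC at h
  rw [sq_eq, sq_eq, sq_eq, sq_eq, sq_eq, sq_eq, cnd_eq, nmax_eq, nmax_eq, nmax_eq] at h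
  generalize Nat.shiftRight (Nat.mul (sqF (Nat.shiftLeft (tLo a1 a2) 60) (Nat.shiftLeft 3 60)) (sinL a1)) 60
    = s at *
  by_cases hs : Nat.beq s 0 = true
  · rw [if_pos hs] at h
    exact absurd h (by decide)
  · rw [if_neg hs] at h
    refine ⟨?_, ?_⟩
    · rcases Nat.eq_zero_or_pos s with h0 | h0
      · exact absurd (by rw [h0]; rfl) hs
      · exact h0
    · exact Nat.le_of_ble_eq_true h

theorem bG : BG := by
  intro hN hBA hBB hBC hBD hBE hSN hNI a1 a2 ha1 ha12 ha2 θ hθ1 hθ2 hn x hx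
  have a1p : 0 < a1 := by omega
  have a2p : 0 < a2 := by omega
  have a1r : (2048 : ℝ) ≤ a1 := by exact_mod_cast ha1
  have a2r : (a2 : ℝ) < 4096 := by exact_mod_cast ha2
  have a1rp : (0 : ℝ) < a1 := by linarith
  have a12r : (a1 : ℝ) ≤ a2 := by exact_mod_cast ha12
  have a2rp : (0 : ℝ) < a2 := by linarith
  have hθ4 : 1 / 4 ≤ θ := by
    refine le_trans ?_ hθ1
    rw [le_div_iff₀ (by norm_num)]; linarith
  have hθh : θ < 1 / 2 := by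
    refine lt_of_le_of_lt hθ2 ?_
    rw [div_lt_iff₀ (by norm_num)]; linarith
  have hθ0 : 0 < θ := by linarith
  obtain ⟨htL, ht8, hwL, hw38, -, -, -, hqA, hqB, hqC, hqD, hpA, hpAB, hpB, hpC, hpCD, hpD⟩ :=
    hBE hN hBA hBB hBD hSN a1 a2 ha1 ha12 ha2 θ hθ1 hθ2
  obtain ⟨s, lhs, d, f, hs, hlhs, hd, hf, hs0, hlt⟩ := niC_eq a1 a2 hn
  refine hNI θ hθ4 hθh ?_ x hx
  set q : ℝ := 1 / θ with hq
  have h2q : 2 / θ = 2 * q := by rw [hq]; ring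
  rw [h2q] at hqC hqD ⊢
  set t : ℝ := tk θ 64 with ht
  set w : ℝ := Real.sin (Real.pi * θ / 2) with hw
  have ht0 : 0 < t := by linarith
  have hw0 : 0 < w := by linarith
  have hq1 : q ≤ 8192 / (a1 : ℝ) := by
    rw [hq, div_le_div_iff₀ hθ0 a1rp]
    rw [div_le_iff₀ (by norm_num)] at hθ1
    linarith
  have hq2 : 8192 / (a2 : ℝ) ≤ q := by
    rw [hq, div_le_div_iff₀ a2rp hθ0]
    rw [le_div_iff₀ (by norm_num)] at hθ2
    linarith
  have hq3 : 2 < q := by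
    rw [hq, lt_div_iff₀ hθ0]; linarith
  -- σ
  have hsσ : (s : ℝ) ≤ 2 ^ 60 * (√t * w) :=
    s_le (tLo a1 a2) (sinL a1) _ s t w ht0.le htL hwL (hBA.1 _ _) hs
  have hsq8 : (2.8 : ℝ) ≤ √t := by
    apply Real.le_sqrt_of_sq_le
    linarith
  have hσ1 : 1 ≤ √t * w := by
    have h1 : (2.8 : ℝ) * 0.38 ≤ √t * w := mul_le_mul hsq8 hw38 (by norm_num) (Real.sqrt_nonneg _)
    have h2 : (1 : ℝ) ≤ 2.8 * 0.38 := by norm_num
    exact le_trans h2 h1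
  have hσ0 : 0 < √t * w := lt_of_lt_of_le one_pos hσ1
  have hΓ0 : 0 < Real.Gamma (2 * q - 1) := Real.Gamma_pos_of_pos (by linarith)
  have hgs := hBC hN hBA hBB s (pC a2) (pD a1) (by omega) hpCD (by omega) (√t * w) (2 * q - 1) hσ1 hsσ hqC hqD
  have hwu : w ≤ Real.pi * ((a2 : ℝ) / 8192) / 2 := by
    have h1 : w ≤ Real.pi * θ / 2 := Real.sin_le (by positivity)
    refine le_trans h1 ?_
    have := Real.pi_pos
    gcongr
  have hL := lhs_ge a2 (gsM s (pC a2) (pD a1)) s lhs w (√t * w)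
    (Real.Gamma (2 * q - 1) * (√t * w) ^ (-(2 * q - 1))) hs0 hsσ
    (mul_nonneg hΓ0.le (Real.rpow_nonneg hσ0.le _)) hgs hw0.le hwu hlhs
  -- right side
  have hdq : |q - 3| * 2 ^ 60 ≤ (d : ℝ) := by rw [hd]; exact d_ge a1 a2 q a1p hq1 hq2
  have hf0 : 0 < f := by
    rcases Nat.eq_zero_or_pos f with h0 | h0
    · rw [h0] at hlt
      have : Nat.shiftRight (Nat.mul 0
        (Nat.div (Nat.shiftLeft (gamL (Nat.add (pA a2) 8192)) 13) (pB a1))) 60 = 0 := by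
        rw [show Nat.mul 0 (Nat.div (Nat.shiftLeft (gamL (Nat.add (pA a2) 8192)) 13) (pB a1)) = 0 from
          Nat.zero_mul _]
        exact Nat.zero_shiftRight 60
      rw [this] at hlt
      exact absurd hlt (Nat.not_lt_zero _)
    · exact h0
  have hF := f_le d f (q - 3) hdq hf hf0
  clear hd hf hlhs hs
  have hpBr : (0 : ℝ) < pB a1 := by
    have : 0 < pB a1 := by omega
    exact_mod_cast this
  have hG : ((Nat.div (Nat.shiftLeft (gamL (Nat.add (pA a2) 8192)) 13) (pB a1) : ℕ) : ℝ) ≤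
      2 ^ 60 * Real.Gamma (q - 1) := by
    refine le_trans (div_le' _ _) ?_
    rw [shl_eq, Nat.cast_mul, Nat.cast_pow, Nat.cast_ofNat]
    have e1 : Nat.add (pA a2) 8192 = pA a2 + 8192 := rfl
    rw [e1]
    have h1 := (hBB hN (pA a2 + 8192) (by omega) (by omega)).2.1
    have h2 : (((pA a2 + 8192 : ℕ) : ℝ)) / 8192 = (pA a2 : ℝ) / 8192 + 1 := by
      rw [Nat.cast_add, Nat.cast_ofNat]; ring
    rw [h2] at h1
    have hpAr : (8192 : ℝ) ≤ pA a2 := by exact_mod_cast hpA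
    have h3 : Real.Gamma ((pA a2 : ℝ) / 8192 + 1) ≤ Real.Gamma q := by
      apply Real.Gamma_strictMonoOn_Ici.monotoneOn
      · show (2 : ℝ) ≤ _
        have : (1 : ℝ) ≤ (pA a2 : ℝ) / 8192 := by
          rw [le_div_iff₀ (by norm_num)]; linarith
        linarith
      · show (2 : ℝ) ≤ _
        linarith
      · linarith
    have h4 : Real.Gamma q = (q - 1) * Real.Gamma (q - 1) := by
      have := Real.Gamma_add_one (s := q - 1) (by linarith)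
      rw [sub_add_cancel] at this
      exact this
    have hΓ1 : 0 < Real.Gamma (q - 1) := Real.Gamma_pos_of_pos (by linarith)
    have h5 : (q - 1) * 8192 ≤ pB a1 := by
      rw [le_div_iff₀ (by norm_num)] at hqB
      exact hqB
    generalize gamL (pA a2 + 8192) = g at *
    generalize (pB a1 : ℝ) = B at *
    rw [div_le_iff₀ hpBr]
    calc (g : ℝ) * 2 ^ 13 ≤ (2 ^ 60 * Real.Gamma ((pA a2 : ℝ) / 8192 + 1)) * 2 ^ 13 := by gcongr
      _ ≤ (2 ^ 60 * Real.Gamma q) * 2 ^ 13 := by gcongr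
      _ = 2 ^ 60 * Real.Gamma (q - 1) * ((q - 1) * 8192) := by rw [h4]; ring
      _ ≤ _ := by gcongr
  have hR := rhs_le f _ _ _ hF hG
  have hlt' : (lhs : ℝ) < ((Nat.shiftRight (Nat.mul f
      (Nat.div (Nat.shiftLeft (gamL (Nat.add (pA a2) 8192)) 13) (pB a1))) 60 : ℕ) : ℝ) := by
    exact_mod_cast hlt
  have hmain : 2 ^ 60 * (w / (√t * w) * (Real.Gamma (2 * q - 1) * (√t * w) ^ (-(2 * q - 1)))) <
      2 ^ 60 * ((1 - 1.2338 * (q - 3) ^ 2) * Real.Gamma (q - 1)) := by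
    linarith
  have hmain2 := lt_of_mul_lt_mul_left hmain (by positivity)
  -- powers
  have hp : (0 : ℝ) < t ^ (-(q - 1)) := Real.rpow_pos_of_pos ht0 _
  have hpow : Real.Gamma (2 * q - 1) * (t * w) ^ (-(2 * q - 1)) =
      (w / (√t * w) * (Real.Gamma (2 * q - 1) * (√t * w) ^ (-(2 * q - 1)))) * t ^ (-(q - 1)) := by
    rw [Real.mul_rpow ht0.le hw0.le, Real.mul_rpow (Real.sqrt_nonneg _) hw0.le]
    have e1 : √t ^ (-(2 * q - 1)) = t ^ (-(q - 1 / 2)) := by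
      rw [Real.sqrt_eq_rpow, ← Real.rpow_mul ht0.le]
      congr 1; ring
    have e2 : w / (√t * w) = t ^ (-(1 / 2 : ℝ)) := by
      rw [Real.rpow_neg ht0.le, ← Real.sqrt_eq_rpow]
      field_simp
    have e3 : t ^ (-(2 * q - 1)) = t ^ (-(1 / 2 : ℝ)) * t ^ (-(q - 1 / 2)) * t ^ (-(q - 1)) := by
      rw [← Real.rpow_add ht0, ← Real.rpow_add ht0]
      congr 1; ring
    rw [e1, e2, e3]
    ring
  rw [hpow]
  exact mul_lt_mul_of_pos_right hmain2 hp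

end Pool.Agent.Helper30.BS
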